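import Mathlib
import Pool.Agent.L7h8.BE.All

/-!
# Small prime solutions of `a p + b q + c r = d` for 100% of all admissible equations

We order the admissible quadruples `(a, b, c, d)` by `A`, the maximum of `|a|, |b|, |c|`, and let
`|d| ≤ D` with any `D` between `A` and `A ^ (3/2)`; for `D = A` this is the ordering of all admissible
equations by their height `max(|a|, |b|, |c|, |d|)`. They are a positive proportion of all quadruples.
For 100% of them, uniformly in `D`, the equation `a p + b q + c r = d` has a solution in primes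
`p, q, r` which are at most `A ^ (1/2) (log A) ^ κ` for an absolute constant `κ`. This is optimal up to
the power of the logarithm: the proportion of the equations which have a solution in integers, not all
zero, of absolute value at most `δ A ^ (1/2)` is at most `ε` if `δ` is small. So for 100% of all
admissible equations the best exponent is `1/2`, and `3 |d|` can be omitted; in particular
`max(p, q, r) ≤ 3 |d| + m ^ μ`, `m = max(3, |a|, |b|, |c|)`, is soluble for 100% of them for every real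
number `μ`.

Proof. For all but `ε` of the triples the lattice of the integral points in the plane orthogonal to
`n = (a, b, c)` has a basis `v, w` of vectors of size `O(A ^ (1/2))` with `w` positive, and there is an
integral point `u` of this size with `n · u = d`. The points `u + x v + y w` are searched on one line
(`x` bounded, chosen modulo the small primes so that there is no local obstruction). By a second moment
(Siegel and Walfisz) all but few of all the lines `u' + y w` contain a point with prime coordinates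
and a small `y`. The point is that the lines which arise are a sparse set: `(u', v, w)` lies in the slab
`|det(v, w, u')| ≤ D`. The number of the `v` for given `(u', w)` is bounded by counting integral points
of a slab in a residue class by Fourier analysis; the exceptions are almost orthogonal to a bounded
integral vector, and these are few.
-/

set_option autoImplicit false

namespace Pool.Agent.Results.MP_3923f3_nt.AlmostAllEquations

open Finset

/-- The quadruple `(a, b, c, d)` is admissible. -/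
structure Admissible (a b c d : ℤ) : Prop where
  a_ne : a ≠ 0
  b_ne : b ≠ 0
  c_ne : c ≠ 0
  not_pos : ¬ (0 < a ∧ 0 < b ∧ 0 < c)
  not_neg : ¬ (a < 0 ∧ b < 0 ∧ c < 0)
  even : Even (a + b + c - d)
  gcd_abc : Int.gcd (Int.gcd a b) c = 1
  gcd_dab : Int.gcd (Int.gcd d a) b = 1
  gcd_dac : Int.gcd (Int.gcd d a) c = 1
  gcd_dbc : Int.gcd (Int.gcd d b) c = 1

/-- The equation `a p + b q + c r = d` has a solution in primes with `max(p, q, r) ≤ 3 |d| + m ^ μ`,
`m = max(3, |a|, |b|, |c|)`. -/
def SmallSolution (μ : ℝ) (a b c d : ℤ) : Prop :=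
  ∃ p q r : ℕ, p.Prime ∧ q.Prime ∧ r.Prime ∧ a * p + b * q + c * r = d ∧
    ((max p (max q r) : ℕ) : ℝ) ≤ 3 * |(d : ℝ)| + ((max 3 (max |a| (max |b| |c|)) : ℤ) : ℝ) ^ μ

/-- The equation `a p + b q + c r = d` has a solution in primes which are at most `X`. -/
def PrimeSolution (X : ℝ) (a b c d : ℤ) : Prop :=
  ∃ p q r : ℕ, p.Prime ∧ q.Prime ∧ r.Prime ∧ a * p + b * q + c * r = d ∧
    ((max p (max q r) : ℕ) : ℝ) ≤ X

/-- The equation `a x + b y + c z = d` has a solution in integers, not all zero, of absolute value at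
most `X`. -/
def IntegerSolution (X : ℝ) (a b c d : ℤ) : Prop :=
  ∃ x y z : ℤ, ¬ (x = 0 ∧ y = 0 ∧ z = 0) ∧ a * x + b * y + c * z = d ∧
    ((max |x| (max |y| |z|) : ℤ) : ℝ) ≤ X

open Classical in
/-- The admissible quadruples with `|a|, |b|, |c| ≤ A` and `|d| ≤ D`. -/
noncomputable def quadruples (A D : ℕ) : Finset (ℤ × ℤ × ℤ × ℤ) :=
  (Icc (-(A : ℤ)) A ×ˢ Icc (-(A : ℤ)) A ×ˢ Icc (-(A : ℤ)) A ×ˢ Icc (-(D : ℤ)) D).filter
    (fun t => Admissible t.1 t.2.1 t.2.2.1 t.2.2.2)

open Classical in
/-- The proportion of the quadruples with the property `Q`. -/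
noncomputable def proportion (A D : ℕ) (Q : ℤ → ℤ → ℤ → ℤ → Prop) : ℝ :=
  (((quadruples A D).filter (fun t => Q t.1 t.2.1 t.2.2.1 t.2.2.2)).card : ℝ) /
    ((quadruples A D).card : ℝ)

lemma adm_iff (a b c d : ℤ) : Admissible a b c d ↔ Pool.Agent.L7h8.BE.Admissible a b c d :=
  ⟨fun h => ⟨h.1, h.2, h.3, h.4, h.5, h.6, h.7, h.8, h.9, h.10⟩,
    fun h => ⟨h.1, h.2, h.3, h.4, h.5, h.6, h.7, h.8, h.9, h.10⟩⟩

lemma quadruples_eq (A D : ℕ) : quadruples A D = Pool.Agent.L7h8.BE.quadruples A D := by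
  unfold quadruples Pool.Agent.L7h8.BE.quadruples
  ext t
  simp only [mem_filter, adm_iff]

lemma proportion_eq (A D : ℕ) (Q : ℤ → ℤ → ℤ → ℤ → Prop) :
    proportion A D Q = Pool.Agent.L7h8.BE.proportion A D Q := by
  unfold proportion Pool.Agent.L7h8.BE.proportion
  rw [quadruples_eq]

/-- **Small prime solutions of `a p + b q + c r = d`, for almost all `(a, b, c, d)`.** -/
theorem result :
    (∃ c₀ : ℝ, 0 < c₀ ∧ ∃ A₀ : ℕ, ∀ A : ℕ, A₀ ≤ A → ∀ D : ℕ, A ≤ D →
      c₀ * ((A : ℝ) ^ 3 * D) ≤ ((quadruples A D).card : ℝ)) ∧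
    (∃ κ : ℕ, ∀ ε : ℝ, 0 < ε → ∃ A₀ : ℕ, ∀ A : ℕ, A₀ ≤ A → ∀ D : ℕ, A ≤ D → D ^ 2 ≤ A ^ 3 →
      1 - ε ≤ proportion A D (PrimeSolution ((A : ℝ) ^ (1 / 2 : ℝ) * Real.log A ^ κ))) ∧
    (∀ ε : ℝ, 0 < ε → ∃ δ : ℝ, 0 < δ ∧ ∃ A₀ : ℕ, ∀ A : ℕ, A₀ ≤ A → ∀ D : ℕ, A ≤ D →
      proportion A D (IntegerSolution (δ * (A : ℝ) ^ (1 / 2 : ℝ))) ≤ ε) ∧
    (∀ μ ε : ℝ, 0 < ε → ∃ A₀ : ℕ, ∀ A : ℕ, A₀ ≤ A → ∀ D : ℕ, A ≤ D → D ^ 2 ≤ A ^ 3 →
      1 - ε ≤ proportion A D (SmallSolution μ)) := by
  have h := Pool.Agent.L7h8.BE.fin'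
  unfold Pool.Agent.L7h8.BE.S_FIN at h
  simp only [quadruples_eq, proportion_eq]
  exact h

end Pool.Agent.Results.MP_3923f3_nt.AlmostAllEquations
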