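import Pool.Agent.L7h6.BC.Cor

/-!
# MP_3923f3_nt: small prime solutions of linear equations whose coefficients are drawn from an arbitrary law

A quadruple `(a, b, c, d)` of integers is admissible (`Admissible`) if `a`, `b`, `c` are nonzero and
not all of the same sign, `a + b + c - d` is even, and each of `gcd(a, b, c)`, `gcd(d, a, b)`,
`gcd(d, a, c)`, `gcd(d, b, c)` is one. The constant `M` of Baker is the infimum of the exponents `μ` for
which every admissible equation `a p + b q + c r = d` has a solution in primes with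

  `max(p, q, r) ≤ 3 |d| + m ^ μ`, `m = max(3, |a|, |b|, |c|)`   (`SmallSolution μ a b c d`).

The starting library treats the coefficients up to `X` with the uniform law (exponent `1 + ε` for almost all
`c` and `|a|, |b| ≤ (log |c|) ^ T`; exponent `2 + ε` for almost all triples).  Here the coefficients are drawn
from an **arbitrary law**, which may live on a very thin set.

* (1) Let `c` be a random integer between `1` and `X` with point masses at most `X ^ (-h)` and
  `P (e ∣ c) ≤ C (log X) ^ B e ^ (-γ)` for all `e` (`Spread`).  Then with probability at least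
  `1 - (log X) ^ (-A)`, **all** admissible equations with third coefficient `± c` and `|a|, |b| ≤ (log c) ^ T`
  have a solution with the exponent `max(1, min(2 - h, 3 / 2)) + ε`; uniformly in the law, `X ≥ X₀(h, γ, C, B, ε, A, T)`.
* (2) Let `(a, b, c)` be a random triple, the components may depend on each other, with
  `P (a = m, b = n) ≤ X ^ (-g)` and `P (e ∣ a, f ∣ b) ≤ C (log X) ^ B (e f) ^ (-γ)`, `γ > 1 / 2`, and the same
  for `(b, c)` and `(c, a)` (`SpreadPair`).  Then with probability at least `1 - (log X) ^ (-A)` all admissible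
  equations with these absolute values of the coefficients have a solution with the exponent
  `max(2, min(4 - g, 3)) + ε`.
* (3) **Thin sets.**  If `S` has at least `X ^ (α - o(1))` members up to `X`, of which at most the proportion
  `C e ^ (-δ)` is divisible by `e` (`Thin`), then for almost all `c ∈ S` the exponent is
  `max(1, min(2 - α, 3 / 2)) + ε`; for three such sets with `δ > 1 / 2` and `α_i + α_j ≥ β`, it is
  `max(2, min(4 - β, 3)) + ε` for almost all triples of their members.
* (4) **Values of polynomials.**  For every polynomial `f` with integer coefficients of degree `d ≥ 1`, all but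
  `M / (log M) ^ A` of the `m ≤ M` have the property that all admissible equations with the coefficient `± f(m)`
  and two coefficients of at most a power of the logarithm have a solution with the exponent
  `max(1, min(2 - 1 / d, 3 / 2)) + ε`, that is, `1 + ε` for `d = 1` and `3 / 2 + ε` for `d ≥ 2`.

The proof: the exceptional coefficients of the starting theorem (`Y883.T6`) are the members of a set `F` of
dimension `2 - θ` (empty for `θ > 3 / 2`) and the multiples of the large members of a set `D` of dimension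
zero.  The sum of `e ^ (-γ)` over `D` converges for every `γ > 0`; for the products of two coefficients, the
divisors of the members of `D` are used.  For polynomials, `d + 1` arguments in an interval of length `H` at
which the values are divisible by `e` exist only if `e ≤ |a_d| H ^ (d (d + 1) / 2)` (divided differences).
-/

set_option autoImplicit false

namespace Pool.Agent.Results.MP_3923f3_nt.CoefficientsFromAnyLaw

open Finset Polynomial
open Pool.Agent.L7h6.BC

open Classical in
/-- **Coefficients drawn from an arbitrary law.** -/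
theorem result :
    -- one large coefficient from any law
    (∀ h γ C ε : ℝ, 0 < h → 0 < γ → 0 < ε → ∀ B A T : ℕ, ∃ X₀ : ℕ, ∀ X : ℕ, X₀ ≤ X →
      ∀ (ι : Type) (s : Finset ι) (w : ι → ℝ) (c : ι → ℕ), Spread h γ C B X s w c →
        ∑ i ∈ s with ¬ One (max 1 (min (2 - h) (3 / 2)) + ε) T (c i), w i ≤ 1 / Real.log X ^ A) ∧
    -- three coefficients from any joint law
    (∀ g γ C ε : ℝ, 0 < g → 1 / 2 < γ → 0 < ε → ∀ B A : ℕ, ∃ X₀ : ℕ, ∀ X : ℕ, X₀ ≤ X →
      ∀ (ι : Type) (s : Finset ι) (w : ι → ℝ) (a b c : ι → ℕ),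
        SpreadPair g γ C B X s w a b → SpreadPair g γ C B X s w b c → SpreadPair g γ C B X s w c a →
        ∑ i ∈ s with ¬ Three (max 2 (min (4 - g) 3) + ε) (a i) (b i) (c i), w i ≤ 1 / Real.log X ^ A) ∧
    -- one large coefficient from a thin set
    (∀ (S : Set ℕ) (α δ : ℝ), 0 < α → 0 < δ → Thin S α δ → ∀ ε : ℝ, 0 < ε → ∀ A T : ℕ, ∃ X₀ : ℕ, ∀ X : ℕ, X₀ ≤ X →
      (#{n ∈ Up S X | ¬ One (max 1 (min (2 - α) (3 / 2)) + ε) T n} : ℝ) ≤ (#(Up S X) : ℝ) / Real.log X ^ A) ∧
    -- three coefficients from thin sets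
    (∀ (S₁ S₂ S₃ : Set ℕ) (α₁ α₂ α₃ β δ : ℝ), 0 < β → 1 / 2 < δ → Thin S₁ α₁ δ → Thin S₂ α₂ δ → Thin S₃ α₃ δ →
      β ≤ α₁ + α₂ → β ≤ α₂ + α₃ → β ≤ α₃ + α₁ → ∀ ε : ℝ, 0 < ε → ∀ A : ℕ, ∃ X₀ : ℕ, ∀ X : ℕ, X₀ ≤ X →
      (#{t ∈ Up S₁ X ×ˢ Up S₂ X ×ˢ Up S₃ X | ¬ Three (max 2 (min (4 - β) 3) + ε) t.1 t.2.1 t.2.2} : ℝ) ≤
        (#(Up S₁ X) : ℝ) * #(Up S₂ X) * #(Up S₃ X) / Real.log X ^ A) ∧
    -- values of polynomials
    (∀ f : ℤ[X], 1 ≤ f.natDegree → ∀ ε : ℝ, 0 < ε → ∀ A T : ℕ, ∃ M₀ : ℕ, ∀ M : ℕ, M₀ ≤ M →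
      (#{m ∈ Icc 1 M | ¬ One (max 1 (min (2 - 1 / (f.natDegree : ℝ)) (3 / 2)) + ε) T
        (f.eval ((m : ℕ) : ℤ)).natAbs} : ℝ) ≤ (M : ℝ) / Real.log M ^ A) :=
  ⟨fun h γ C ε hh hγ hε B A T => one_law h γ C ε hh hγ hε B A T,
    fun g γ C ε hg hγ hε B A => three_law g γ C ε hg hγ hε B A,
    fun _ _ _ hα hδ hS ε hε A T => thin_one hα hδ hS ε hε A T,
    fun _ _ _ _ _ _ _ _ hβ hδ h1 h2 h3 h12 h23 h31 ε hε A => thin_three hβ hδ h1 h2 h3 h12 h23 h31 ε hε A,
    fun f hf ε hε A T => poly_one f hf ε hε A T⟩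

end Pool.Agent.Results.MP_3923f3_nt.CoefficientsFromAnyLaw
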