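import Mathlib

/-!
# Baker's constant is at least `log 13 / log 3 = 2.3347...`, so it is not one

A quadruple `(a, b, c, d)` of integers is admissible if `a`, `b`, `c` are nonzero and not all of the same
sign, `a + b + c - d` is even, and each of `gcd(a, b, c)`, `gcd(d, a, b)`, `gcd(d, a, c)`,
`gcd(d, b, c)` is one.  A real number `μ` is good if for every admissible quadruple the equation
`a p + b q + c r = d` has a solution in primes with `max(p, q, r) ≤ 3 |d| + m ^ μ`,
`m = max(3, |a|, |b|, |c|)`, and the constant `M` of Baker is the infimum of the good numbers.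

The least solution in primes of `p = 2 q + 3 r` is `13 = 2 * 2 + 3 * 3`.  So every good number is at
least `log 13 / log 3`.
-/

set_option autoImplicit false

namespace Pool.Agent.Results.MP_3923f3_nt.ConstantExceedsOne

/-- Admissible quadruples. -/
def Admissible (a b c d : ℤ) : Prop :=
  a ≠ 0 ∧ b ≠ 0 ∧ c ≠ 0 ∧ ¬ (0 < a ∧ 0 < b ∧ 0 < c) ∧ ¬ (a < 0 ∧ b < 0 ∧ c < 0) ∧
    Even (a + b + c - d) ∧ Int.gcd a (Int.gcd b c) = 1 ∧ Int.gcd d (Int.gcd a b) = 1 ∧
    Int.gcd d (Int.gcd a c) = 1 ∧ Int.gcd d (Int.gcd b c) = 1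

/-- The number `μ` is good. -/
def Good (μ : ℝ) : Prop :=
  ∀ a b c d : ℤ, Admissible a b c d → ∃ p q r : ℕ, p.Prime ∧ q.Prime ∧ r.Prime ∧
    a * p + b * q + c * r = d ∧
    ((max p (max q r) : ℕ) : ℝ) ≤ 3 * |(d : ℝ)| + ((max 3 (max |a| (max |b| |c|)) : ℤ) : ℝ) ^ μ

theorem adm : Admissible 1 (-2) (-3) 0 := by
  refine ⟨by norm_num, by norm_num, by norm_num, by norm_num, by norm_num, by decide, ?_, ?_, ?_, ?_⟩ <;>
    decide

theorem least (p q r : ℕ) (hp : p.Prime) (hq : q.Prime) (hr : r.Prime)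
    (h : (1 : ℤ) * p + (-2) * q + (-3) * r = 0) : 13 ≤ p := by
  have h1 : p = 2 * q + 3 * r := by omega
  by_contra hc
  have hq2 := hq.two_le
  have hr2 := hr.two_le
  have hr3 : r ≤ 2 ∨ r = 3 ∨ 4 ≤ r := by omega
  rcases hr3 with hr3 | hr3 | hr3
  · have : r = 2 := by omega
    subst this
    have : 2 ∣ p := ⟨q + 3, by omega⟩
    rcases (Nat.dvd_prime hp).1 this with h2 | h2 <;> omega
  · omega
  · omega

/-- Every good number is at least `log 13 / log 3`, so the infimum of the good numbers is at least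
`log 13 / log 3 > 2.33`, in particular it is not one. -/
theorem result :
    (∀ μ : ℝ, Good μ → Real.log 13 / Real.log 3 ≤ μ) ∧ (2.33 : ℝ) < Real.log 13 / Real.log 3 ∧
    ((∃ μ, Good μ) → (2.33 : ℝ) < sInf {μ : ℝ | Good μ}) := by
  have key : ∀ μ : ℝ, Good μ → Real.log 13 / Real.log 3 ≤ μ := by
    intro μ hμ
    obtain ⟨p, q, r, hp, hq, hr, h, hm⟩ := hμ 1 (-2) (-3) 0 adm
    have h13 : 13 ≤ p := least p q r hp hq hr (by simpa using h)
    have e1 : (max (3 : ℤ) (max |1| (max |(-2)| |(-3)|))) = 3 := by decide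
    rw [e1] at hm
    have h2 : (13 : ℝ) ≤ (3 : ℝ) ^ μ := by
      have : ((13 : ℕ) : ℝ) ≤ ((max p (max q r) : ℕ) : ℝ) := by
        exact_mod_cast h13.trans (le_max_left _ _)
      have h3 : ((max p (max q r) : ℕ) : ℝ) ≤ (3 : ℝ) ^ μ := by
        simpa using hm
      calc (13 : ℝ) = ((13 : ℕ) : ℝ) := by norm_num
        _ ≤ _ := this
        _ ≤ _ := h3
    have h3 : Real.log 13 ≤ μ * Real.log 3 := by
      have := Real.log_le_log (by norm_num) h2
      rwa [Real.log_rpow (by norm_num)] at this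
    rw [div_le_iff₀ (Real.log_pos (by norm_num))]
    exact h3
  have num : (2.33 : ℝ) < Real.log 13 / Real.log 3 := by
    rw [lt_div_iff₀ (Real.log_pos (by norm_num))]
    have : (233 : ℝ) * Real.log 3 < 100 * Real.log 13 := by
      have h : Real.log ((3 : ℝ) ^ (233 : ℕ)) < Real.log ((13 : ℝ) ^ (100 : ℕ)) :=
        Real.log_lt_log (by positivity) (by norm_num)
      rw [Real.log_pow, Real.log_pow] at h
      simpa using h
    linarith
  refine ⟨key, num, fun hne => lt_of_lt_of_le num (le_csInf hne key)⟩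

end Pool.Agent.Results.MP_3923f3_nt.ConstantExceedsOne
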