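import Pool.Agent.L7h46.TK.Asm

/-!
# MP_3923f3_nt: Baker's constant, all equations with pairwise coprime coefficients, exponent `3 + ε`

A quadruple `(a, b, c, d)` of integers is admissible (`Admissible`) if `a`, `b`, `c` are nonzero and
not all of the same sign, `a + b + c - d` is even, and each of `gcd(a, b, c)`, `gcd(d, a, b)`,
`gcd(d, a, c)`, `gcd(d, b, c)` is one. The constant of Baker is the infimum of the exponents `μ` for
which every admissible equation `a p + b q + c r = d` has a solution in primes with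

  `max(p, q, r) ≤ 3 |d| + m ^ μ`, `m = max(3, |a|, |b|, |c|)`   (`SmallSolution μ a b c d`).

It is known that it is at most `45`, and at most `4` on the generalized Riemann hypothesis.

**Theorem.** Let `ε > 0` and `T` be given. **All** admissible equations for which `a`, `b`, `c` are pairwise
coprime, `m` is sufficiently large and `gcd(d, a b c) ≤ (log m) ^ T` have a solution in primes with

  `max(p, q, r) ≤ 3 |d| + m ^ (3 + ε)`.

More precisely, for `θ > 3 / 2` and `Δ = max(|a b|, |b c|, |c a|)` sufficiently large,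
`gcd(d, a b c) ≤ (log Δ) ^ T`, there is a solution with

  `max(|a| p, |b| q, |c| r) ≤ 3 |d| + min(|a|, |b|, |c|) Δ ^ θ`.

No set of coefficients is excluded besides the conditions on the greatest common divisors. The exponent lies below
the exponent `4` of the generalized Riemann hypothesis; the exponents known before without exceptional coefficients
were `4 + ε` (the starting theorem `PairwiseCoprimeCoefficients`, `θ > 2`); the exponent `3 + ε` was known outside
the multiples of the members of a sparse set (`ThreeLargeCoefficients`).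

The proof. The von Mangoldt function is replaced by a sieve model in each unknown; the unknown `p` is considered
modulo `k b c` with small `k`, and so on, where the moduli may be as large as the power `2 / 3 - ρ` of the length of
the unknown. At this level the exponential sums over the primes twisted by the characters are small in mean square
by the decomposition of the primes into sums of type I and of type II of `R460/GH` (Project GH of the starting
files, where it is used for the binary problem), outside the major arcs and outside at most `(log m) ^ C` bad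
characters, which have conductors larger than any power of the logarithm (Siegel and Walfisz). The ternary circle
method over the classes is carried out here for all levels up to `3 / 4` (`TernK`): the minor arcs by orthogonality,
the triples of characters on the major arcs by the generalised Jacobi sums over the solutions of
`a x + b y + c z ≡ d` modulo `k a b c`. So no information on the zeros of the `L`-functions is needed.
-/

set_option autoImplicit false

namespace Pool.Agent.Results.MP_3923f3_nt.PairwiseCoprimeExponentThree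

open Pool.Agent.Y883.T5 (Admissible)
open Pool.Agent.Y883.T6 (SmallSolution)

/-- **Prime solutions of `a p + b q + c r = d` with pairwise coprime coefficients, exponent `3 + ε`.** -/
theorem result :
    (∀ θ : ℝ, 3 / 2 < θ → ∀ T : ℕ, ∃ Δ₀ : ℕ, ∀ a b c d : ℤ, Admissible a b c d →
      Int.gcd a b = 1 → Int.gcd b c = 1 → Int.gcd c a = 1 →
      ∀ Δ : ℕ, Δ = max (a * b).natAbs (max (b * c).natAbs (c * a).natAbs) → Δ₀ ≤ Δ →
      (Int.gcd d (a * b * c) : ℝ) ≤ Real.log Δ ^ T →
      ∃ p q r : ℕ, p.Prime ∧ q.Prime ∧ r.Prime ∧ a * p + b * q + c * r = d ∧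
        ((max (a.natAbs * p) (max (b.natAbs * q) (c.natAbs * r)) : ℕ) : ℝ) ≤
          3 * |(d : ℝ)| + (min a.natAbs (min b.natAbs c.natAbs) : ℕ) * (Δ : ℝ) ^ θ) ∧
    (∀ ε : ℝ, 0 < ε → ∀ T : ℕ, ∃ m₀ : ℕ, ∀ a b c d : ℤ, Admissible a b c d →
      Int.gcd a b = 1 → Int.gcd b c = 1 → Int.gcd c a = 1 → ∀ m : ℤ, m = max 3 (max |a| (max |b| |c|)) →
      (m₀ : ℤ) ≤ m → (Int.gcd d (a * b * c) : ℝ) ≤ Real.log m ^ T → SmallSolution (3 + ε) a b c d) := by
  have hmain := Pool.Agent.L7h46.TK.main_all
  refine ⟨hmain, fun ε hε T => ?_⟩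
  obtain ⟨Δ₀, h0⟩ := hmain (3 / 2 + ε / 2) (by linarith) T
  refine ⟨Δ₀ + 4, fun a b c d hadm h1 h2 h3 m hm hm0 hg => ?_⟩
  obtain ⟨Δ, hΔ⟩ : ∃ Δ : ℕ, Δ = max (a * b).natAbs (max (b * c).natAbs (c * a).natAbs) := ⟨_, rfl⟩
  have e1 : (a * b).natAbs = a.natAbs * b.natAbs := Int.natAbs_mul _ _
  have e2 : (b * c).natAbs = b.natAbs * c.natAbs := Int.natAbs_mul _ _
  have e3 : (c * a).natAbs = c.natAbs * a.natAbs := Int.natAbs_mul _ _
  obtain ⟨u, hu⟩ : ∃ u : ℕ, u = a.natAbs := ⟨_, rfl⟩
  obtain ⟨v, hv⟩ : ∃ v : ℕ, v = b.natAbs := ⟨_, rfl⟩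
  obtain ⟨w, hw⟩ : ∃ w : ℕ, w = c.natAbs := ⟨_, rfl⟩
  have hu1 : 1 ≤ u := by rw [hu]; exact Int.natAbs_pos.2 hadm.a_ne
  have hv1 : 1 ≤ v := by rw [hv]; exact Int.natAbs_pos.2 hadm.b_ne
  have hw1 : 1 ≤ w := by rw [hw]; exact Int.natAbs_pos.2 hadm.c_ne
  have hau : |a| = (u : ℤ) := by rw [hu]; exact Int.abs_eq_natAbs a
  have hbv : |b| = (v : ℤ) := by rw [hv]; exact Int.abs_eq_natAbs b
  have hcw : |c| = (w : ℤ) := by rw [hw]; exact Int.abs_eq_natAbs c
  have hΔ' : Δ = max (u * v) (max (v * w) (w * u)) := by rw [hΔ, e1, e2, e3, hu, hv, hw]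
  have huv : u ≤ u * v := Nat.le_mul_of_pos_right _ hv1
  have hvw : v ≤ v * w := Nat.le_mul_of_pos_right _ hw1
  have hwu : w ≤ w * u := Nat.le_mul_of_pos_right _ hu1
  obtain ⟨M, hM⟩ : ∃ M : ℕ, M = max 3 (max u (max v w)) := ⟨_, rfl⟩
  have hmM : m = (M : ℤ) := by
    rw [hm, hau, hbv, hcw, hM]
    push_cast
    rfl
  have hM4 : Δ₀ + 4 ≤ M := by
    rw [hmM] at hm0
    exact_mod_cast hm0
  have hMΔ : M ≤ Δ := by omega
  have hM0 : (0 : ℝ) < M := by exact_mod_cast (by omega : 0 < M)
  have hM1 : (1 : ℝ) ≤ M := by exact_mod_cast (by omega : 1 ≤ M)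
  have hmr : (m : ℝ) = M := by rw [hmM]; norm_num
  have hsol := h0 a b c d hadm h1 h2 h3 Δ hΔ (by omega) (by
    refine hg.trans ?_
    rw [hmr]
    apply pow_le_pow_left₀ (Real.log_nonneg hM1)
    exact Real.log_le_log hM0 (by exact_mod_cast hMΔ))
  have hsol' : Pool.Agent.Y883.T6.Sol6 (3 / 2 + ε / 2) Δ a b c d := hsol
  apply hsol'.small hadm.a_ne hadm.b_ne hadm.c_ne
  rw [← hm, hmr]
  have hΔM : Δ ≤ M * M := by
    have a1 : u ≤ M := by omega
    have a2 : v ≤ M := by omega
    have a3 : w ≤ M := by omega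
    rw [hΔ']
    exact max_le (Nat.mul_le_mul a1 a2) (max_le (Nat.mul_le_mul a2 a3) (Nat.mul_le_mul a3 a1))
  have hΔMr : (Δ : ℝ) ≤ (M : ℝ) ^ (2 : ℝ) := by
    have : (Δ : ℝ) ≤ M * M := by exact_mod_cast hΔM
    rw [Real.rpow_two, sq]
    exact this
  calc (Δ : ℝ) ^ (3 / 2 + ε / 2) ≤ ((M : ℝ) ^ (2 : ℝ)) ^ (3 / 2 + ε / 2) :=
        Real.rpow_le_rpow (Nat.cast_nonneg _) hΔMr (by linarith)
    _ = (M : ℝ) ^ (3 + ε) := by
        rw [← Real.rpow_mul hM0.le]
        congr 1
        ring

end Pool.Agent.Results.MP_3923f3_nt.PairwiseCoprimeExponentThree
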